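import Pool.Agent.V1140.DP.Dual

/-!
# The alternating-sum form of the weight conjecture for groups with central `O_p(G)`: rationality

Let `p` be a prime, `G` a finite group and `Z` a central `p`-subgroup of `G` (for the conjecture:
`Z = O_p(G)`). All sums are over representatives `σ` of the `G`-conjugacy classes of chains
`Z = D_0 < D_1 < ... < D_n` of `p`-subgroups of `G` (`n = 0` included), with the sign `(-1)^n`, and
`G_σ` is the stabiliser. Let `c` be the alternating sum of the numbers of the irreducible characters
of `G_σ / Z`, and let `Z[m]` be the set of the elements `z` of `Z` with `z ^ m = 1`.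

* The alternating sum of the numbers of all irreducible characters of `G_σ` is `|Z| c`.
* The alternating sum of the numbers of the `p^a`-rational irreducible characters of `G_σ` is
  `|Z[p^a]| c` (`a ≥ 2` if `p = 2`), and for the characters of `p`-rationality level exactly `a ≥ 1`
  (`a ≥ 3` if `p = 2`) it is `(|Z[p^a]| - |Z[p^(a-1)]|) c`; so they cancel if `p^(a-1)` is a multiple
  of the exponent of `Z`.
* Let `z` be the number of the irreducible characters of `G / Z` of `p`-defect zero. The identity
  `∑ (-1)^|σ| |Irr(G_σ)| = |Z| z`, which for `Z = O_p(G)` is the sum of the identities of the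
  conjecture over all blocks (the blocks with the defect group `Z` have `|Z|` irreducible characters
  each, and there are `z` of them), holds if and only if the alternating sum of the numbers of the
  `p^a`-rational characters is `|Z[p^a]| z`; for `p` odd and `a = 0`, if and only if the alternating
  sum of the numbers of the `p`-rational characters is `z`.
-/

set_option autoImplicit false

open Pool.Agent.Y63.AWC Pool.Agent.V1140.DC Pool.Agent.V1140.DP

namespace Pool.Agent.Results.MP_6a3f1a_al.CentralLevels

/-- The number of the irreducible characters `χ` of `G / Z` (that is, of `G` with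
`χ(z) = χ(1)` for all `z` in `Z`) of `p`-defect zero, `χ(1)_p = |G / Z|_p`. -/
noncomputable def numDefectZeroMod (p : ℕ) {G : Type} [Group G] (Z : Subgroup G) : ℕ :=
  Nat.card {χ : G → ℂ // IsIrreducibleCharacter χ ∧ (∀ z ∈ Z, χ z = χ 1) ∧
    ∃ n : ℕ, χ 1 = (n : ℂ) ∧
      n.factorization p = (Nat.card G / Nat.card Z).factorization p}

/-- **Theorem.** The alternating sums of the numbers of all, of the `p^a`-rational and of the level
`a` irreducible characters of the stabilisers of the chains of `p`-subgroups above a central
`p`-subgroup `Z`; the weight conjecture is about the `p`-rational characters. -/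
theorem result (p : ℕ) [Fact p.Prime] (G : Type) [Group G] [Finite G] (Z : Subgroup G)
    (hZ : Z ≤ Subgroup.center G) (hp : IsPGroup p Z) :
    zSum p Z (fun H => (numIrrChar H : ℤ)) =
      (Nat.card Z : ℤ) * zSum p Z (fun H => (numIrrOver Z 1 H : ℤ)) ∧
    (∀ a : ℕ, (p = 2 → 2 ≤ a) →
      zSum p Z (fun H => (numRationalChar p a H : ℤ)) =
        (Nat.card {z : Z // z ^ p ^ a = 1} : ℤ) *
          zSum p Z (fun H => (numIrrOver Z 1 H : ℤ))) ∧
    (∀ a : ℕ, 1 ≤ a → (p = 2 → 3 ≤ a) →
      zSum p Z (fun H => (numLevelChar p a H : ℤ)) =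
        ((Nat.card {z : Z // z ^ p ^ a = 1} : ℤ) -
          (Nat.card {z : Z // z ^ p ^ (a - 1) = 1} : ℤ)) *
          zSum p Z (fun H => (numIrrOver Z 1 H : ℤ))) ∧
    (∀ a : ℕ, (p = 2 → 2 ≤ a) →
      (zSum p Z (fun H => (numIrrChar H : ℤ)) = (Nat.card Z : ℤ) * (numDefectZeroMod p Z : ℤ) ↔
        zSum p Z (fun H => (numRationalChar p a H : ℤ)) =
          (Nat.card {z : Z // z ^ p ^ a = 1} : ℤ) * (numDefectZeroMod p Z : ℤ))) := by
  refine ⟨total' hZ hp, fun a ha => rational' hZ hp ha, fun a _ ha => level' hZ hp ha,
    fun a ha => ?_⟩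
  rw [total' hZ hp, rational' hZ hp ha]
  have h1 : (Nat.card Z : ℤ) ≠ 0 := by exact_mod_cast Nat.card_pos.ne'
  have h2 : (Nat.card {z : Z // z ^ p ^ a = 1} : ℤ) ≠ 0 := by
    have : Nonempty {z : Z // z ^ p ^ a = 1} := ⟨⟨1, one_pow _⟩⟩
    exact_mod_cast Nat.card_pos.ne'
  rw [mul_right_inj' h1, mul_right_inj' h2]

end Pool.Agent.Results.MP_6a3f1a_al.CentralLevels
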