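import Pool.Agent.Y63.KR.Levels

/-!
# Alternating sums over chains of `p`-subgroups and rationality of conjugacy classes

Let `G` be a finite group and `p` a prime. All sums are over representatives `σ` of the
`G`-conjugacy classes of chains of nontrivial `p`-subgroups of `G` (the empty chain included), with
sign `(-1)^|σ|`, and `G_σ` is the stabiliser.

* For every `s` the alternating sum of the numbers of the conjugacy classes `C` of `G_σ` which
  consist of elements of order divisible by `p` and satisfy `C ^ s = C` is zero.
* The classes of `p`-rationality level `a` (that is, `p^a`-rational and not `p^(a-1)`-rational)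
  contribute zero to the alternating sum of the numbers `k(G_σ)`, for each `a ≥ 1` (`a ≥ 3` if
  `p = 2`).
* The Knörr–Robinson form of Alperin's weight conjecture, summed over the blocks,
  `∑ (-1)^|σ| k(G_σ) = z_p(G)`, holds for `G` if and only if it holds with `k(G_σ)` replaced by the
  number of the `p`-rational classes of `G_σ` (of the `4`-rational classes if `p = 2`).
-/

open scoped Classical

namespace Pool.Agent.Results.MP_6a3f1a_al.RationalityLevels

open Pool.Agent.Y63.KR Pool.Agent.Y63.AWC

/-- The number of the conjugacy classes of elements `x` of order divisible by `p` such that `x` is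
conjugate to `x ^ s`. -/
noncomputable def numFixedSingular (p s : ℕ) (H : Type) [Group H] : ℕ :=
  Nat.card {c : ConjClasses H // ∃ x : H, ConjClasses.mk x = c ∧ IsConj x (x ^ s) ∧
    p ∣ orderOf x}

theorem order_conj {H : Type} [Group H] {x y : H} (h : IsConj x y) : orderOf x = orderOf y := by
  obtain ⟨c, rfl⟩ := isConj_iff.1 h
  exact ((MulAut.conj c).orderOf_eq x).symm

theorem add_singular (p s : ℕ) (H : Type) [Group H] [Finite H] :
    numFixed s H = numFixedRegular p s H + numFixedSingular p s H := by
  haveI : Finite (ConjClasses H) := inferInstance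
  have h1 : numFixed s H = ({c : ConjClasses H | ∃ x : H, ConjClasses.mk x = c ∧
      IsConj x (x ^ s)}).ncard := rfl
  have h2 : numFixedRegular p s H = ({c : ConjClasses H | ∃ x : H, ConjClasses.mk x = c ∧
      IsConj x (x ^ s) ∧ ¬ p ∣ orderOf x}).ncard := rfl
  have h3 : numFixedSingular p s H = ({c : ConjClasses H | ∃ x : H, ConjClasses.mk x = c ∧
      IsConj x (x ^ s) ∧ p ∣ orderOf x}).ncard := rfl
  rw [h1, h2, h3, ← Set.ncard_union_eq]
  · congr 1
    ext c
    constructor
    · rintro ⟨x, hx, h⟩
      by_cases hp : p ∣ orderOf x
      · exact Or.inr ⟨x, hx, h, hp⟩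
      · exact Or.inl ⟨x, hx, h, hp⟩
    · rintro (⟨x, hx, h, _⟩ | ⟨x, hx, h, _⟩) <;> exact ⟨x, hx, h⟩
  · rw [Set.disjoint_left]
    rintro c ⟨x, hx, _, h⟩ ⟨y, hy, _, h'⟩
    apply h
    have h4 : IsConj x y := ConjClasses.mk_eq_mk_iff_isConj.1 (hx.trans hy.symm)
    rw [order_conj h4]
    exact h'

/-- The `p`-singular classes fixed by a power map, and the classes of positive `p`-rationality
level, contribute zero to the alternating sum of the numbers of classes of the stabilisers of the
chains of `p`-subgroups; so the weight conjecture is about the `p`-rational classes. -/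
theorem result (p : ℕ) [Fact p.Prime] (G : Type) [Group G] [Finite G] :
    (∀ s : ℕ, alternatingSum p G (fun H => (numFixedSingular p s H : ℤ)) = 0) ∧
    (∀ a : ℕ, 1 ≤ a → (p = 2 → 3 ≤ a) →
      alternatingSum p G (fun H => (numLevel p a H : ℤ)) = 0) ∧
    (∀ a : ℕ, (p = 2 → 2 ≤ a) →
      (alternatingSum p G (fun H => (Nat.card (ConjClasses H) : ℤ)) = (numDefectZero p G : ℤ) ↔
        alternatingSum p G (fun H => (numRational p a H : ℤ)) = (numDefectZero p G : ℤ))) := by
  refine ⟨fun s => ?_, fun a h1 h2 => sum_level a h1 h2, fun a ha => by rw [sum_rational a ha]⟩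
  have h1 := galois (p := p) (G := G) s
  have h2 : (fun H : Subgroup G => (numFixed s H : ℤ)) = fun H : Subgroup G =>
      (numFixedRegular p s H : ℤ) + (numFixedSingular p s H : ℤ) := by
    funext H
    rw [add_singular p s H]
    push_cast
    rfl
  have h3 := alternatingSum_sub (p := p) (G := G) (fun H => (numFixed s H : ℤ))
    (fun H => (numFixedRegular p s H : ℤ))
  rw [h1, sub_self] at h3
  rw [← h3]
  congr 1
  funext H
  rw [add_singular p s H]
  push_cast
  ring

end Pool.Agent.Results.MP_6a3f1a_al.RationalityLevels
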